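import Pool.Agent.H486R2.RedH

set_option autoImplicit false

/-!
# Nontrivial eigenvalues of the Redheffer matrix

The nontrivial eigenvalues of the Redheffer matrices `A(n)` are unbounded: for every `R` there are
infinitely many `n` for which `A(n)` has a nontrivial eigenvalue of modulus larger than `R`.
-/

namespace Pool.Agent.Results.MP_8a4b73_nt.NontrivialUnbounded

/-- The Redheffer matrix `A(n)`: with rows and columns numbered `1, ..., n`, the entry in row `i`
and column `j` is `1` if `j = 1` or `i ∣ j`, and `0` otherwise. (The index `i : Fin n` stands for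
the number `i + 1`.) -/
def redheffer (n : ℕ) : Matrix (Fin n) (Fin n) ℂ :=
  fun i j => if (j : ℕ) = 0 ∨ ((i : ℕ) + 1) ∣ ((j : ℕ) + 1) then 1 else 0

/-- The eigenvalues of `A(n)` with algebraic multiplicity (roots of the characteristic
polynomial). -/
noncomputable def eigenvalues (n : ℕ) : Multiset ℂ := (redheffer n).charpoly.roots

/-- The eigenvalues left after removing `n - ⌊log₂ n⌋ - 1` copies of `1` and one copy each of `a`
and `b`. For `a`, `b` the two dominant real eigenvalues these are the nontrivial eigenvalues. -/
noncomputable def remaining (n : ℕ) (a b : ℂ) : Multiset ℂ :=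
  eigenvalues n - Multiset.replicate (n - Nat.log 2 n - 1) 1 - {a, b}

/-- For every `R` and `N` there is `n ≥ N` such that, whichever two eigenvalues `a`, `b` are
removed from the spectrum of `A(n)` together with `n - ⌊log₂ n⌋ - 1` copies of `1`, an
eigenvalue of modulus larger than `R` remains. -/
theorem result : ∀ (R : ℝ) (N : ℕ), ∃ n ≥ N, ∀ a b : ℂ, ∃ x ∈ remaining n a b, R < ‖x‖ :=
  fun R N => Pool.Agent.H486R2.Red.main R N

end Pool.Agent.Results.MP_8a4b73_nt.NontrivialUnbounded
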